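import Pool.Agent.Y231.MC.Gen
import Pool.Agent.Results.MP_f5ed0a_al.MinimumCondition

/-!
# The minimum condition for all varieties in which cubes are combinations of higher powers

Let `V` be a variety of rings such that in every ring of `V` the cube of every element `x` is an
integer combination of `x ^ 4, x ^ 5, ...` (of any length and with any integer coefficients, which
may depend on the ring and on `x`; they may all be `0`).  Then `V` satisfies the minimum condition on
subvarieties, and every subvariety of `V` is defined by finitely many identities.  This contains the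
varieties `M n` given by `x ^ 3 = x ^ n`, `n ≥ 4`.
-/

universe u

namespace Pool.Agent.Results.MP_f5ed0a_al.HigherPowers

open Pool.Agent.Results.MP_f5ed0a_al.MinimumCondition Pool.Agent.Helper60 Pool.Agent.Y231.MC

/-- In every ring of the variety `V` the cube of every element is an integer combination of higher
powers of this element. -/
def CubesReduce (V : RingVariety.{u}) : Prop :=
  ∀ (R : Type u) [NonUnitalRing R], V.mem R → ∀ x : R, ∃ (N : ℕ) (c : ℕ → ℤ),
    power x 3 = ∑ i ∈ Finset.range N, c i • power x (4 + i)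

/-- The variety `V` is defined by a finite set of identities. -/
def FinitelyBased (V : RingVariety.{u}) : Prop :=
  ∃ E : Set (RTerm × RTerm), E.Finite ∧
    ∀ (R : Type u) [NonUnitalRing R], V.mem R ↔ ∀ e ∈ E, Satisfies R e

/-! ### Expressions for integer combinations -/

/-- `n` times an expression -/
def nsmulT : ℕ → RTerm → RTerm
  | 0, _ => .zero
  | n + 1, s => .add (nsmulT n s) s

/-- an integer times an expression -/
def zsmulT : ℤ → RTerm → RTerm
  | .ofNat n, s => nsmulT n s
  | .negSucc n, s => .neg (nsmulT (n + 1) s)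

/-- a sum of expressions -/
def sumT : ℕ → (ℕ → RTerm) → RTerm
  | 0, _ => .zero
  | n + 1, s => .add (sumT n s) (s n)

theorem val_nsmulT {R : Type u} [NonUnitalRing R] (v : ℕ → R) (n : ℕ) (s : RTerm) :
    (nsmulT n s).val v = n • s.val v := by
  induction n with
  | zero => rw [zero_smul]; rfl
  | succ n ih => rw [add_smul, one_smul, ← ih]; rfl

theorem val_zsmulT {R : Type u} [NonUnitalRing R] (v : ℕ → R) (z : ℤ) (s : RTerm) :
    (zsmulT z s).val v = z • s.val v := by
  cases z with
  | ofNat n =>
    change (nsmulT n s).val v = _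
    rw [val_nsmulT]; simp
  | negSucc n =>
    change - (nsmulT (n + 1) s).val v = _
    rw [val_nsmulT, negSucc_zsmul]

theorem val_sumT {R : Type u} [NonUnitalRing R] (v : ℕ → R) (n : ℕ) (s : ℕ → RTerm) :
    (sumT n s).val v = ∑ i ∈ Finset.range n, (s i).val v := by
  induction n with
  | zero => rfl
  | succ n ih => rw [Finset.sum_range_succ, ← ih]; rfl

theorem val_map {R : Type*} {S : Type*} [NonUnitalRing R] [NonUnitalRing S] (φ : R →ₙ+* S)
    (v : ℕ → R) (s : RTerm) : s.val (fun i => φ (v i)) = φ (s.val v) := by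
  induction s with
  | var i => rfl
  | zero => exact (map_zero φ).symm
  | neg s ih => simp only [RTerm.val, map_neg, ih]
  | add s t h1 h2 => simp only [RTerm.val, map_add, h1, h2]
  | mul s t h1 h2 => simp only [RTerm.val, map_mul, h1, h2]

/-! ### The ideals of identities -/

theorem isT_idl (V : RingVariety.{u}) : IsT (idl V) := by
  intro w f hf
  rw [mem_idl] at hf ⊢
  intro R _ hR v
  rw [map_ev]
  exact hf R hR _

theorem idl_mono {V W : RingVariety.{u}} (h : Sub W V) : idl V ≤ idl W := by
  intro f hf
  rw [mem_idl] at hf ⊢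
  intro R _ hR v
  exact hf R (h R hR) v

/-- The identity `e` holds in `V` if and only if it lies in the ideal. -/
theorem mem_idl_term {V : RingVariety.{u}} (e : RTerm × RTerm) :
    e.1.val Xv - e.2.val Xv ∈ idl V ↔
      ∀ (R : Type u) [NonUnitalRing R], V.mem R → Satisfies R e := by
  rw [mem_idl]
  constructor
  · intro h R _ hR v
    have := h R hR v
    rwa [map_sub, ev_val, ev_val, sub_eq_zero] at this
  · intro h R _ hR v
    rw [map_sub, ev_val, ev_val, h R hR v, sub_self]

/-- The relatively free ring belongs to the variety. -/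
theorem free_mem (V : RingVariety.{u}) {Q : Type} [NonUnitalRing Q] (π : FR →ₙ+* Q)
    (hs : Function.Surjective π) (hk : ∀ x, π x = 0 ↔ x ∈ idl V) : V.mem (ULift.{u} Q) := by
  obtain ⟨E, hE⟩ := V.equational
  rw [hE]
  intro e he v
  choose w hw using fun i => hs (v i).down
  have h1 : e.1.val Xv - e.2.val Xv ∈ idl V :=
    (mem_idl_term e).2 fun R _ hR => (hE R).1 hR e he
  have h2 := isT_idl V w _ h1
  rw [← hk, map_sub, ev_val, ev_val, map_sub, sub_eq_zero] at h2
  let φ : Q →ₙ+* ULift.{u} Q :=
    { toFun := ULift.up, map_mul' := fun _ _ => rfl, map_zero' := rfl, map_add' := fun _ _ => rfl }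
  have h3 : v = fun i => (φ.comp π) (w i) := by
    funext i
    change v i = ULift.up (π (w i))
    rw [hw i]
  rw [h3, val_map, val_map]
  change φ (π _) = φ (π _)
  rw [h2]

theorem pw_up {Q : Type} [NonUnitalRing Q] (x : Q) (k : ℕ) :
    pw (ULift.up.{u} x) k = ULift.up.{u} (pw x k) := by
  induction k with
  | zero => rfl
  | succ k ih => rw [pw, ih]; rfl

/-- One identity `x ^ 3 = x ^ 4 g(x)` holds in the variety. -/
theorem uniform {V : RingVariety.{u}} (hV : CubesReduce V) : ∃ (N : ℕ) (c : ℕ → ℤ), ∀ f : FR,
    pw f 2 - ∑ i ∈ Finset.range N, c i • pw f (3 + i) ∈ idl V := by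
  obtain ⟨Q, _, π, hs, hk⟩ := quot_pkg (idl V)
  obtain ⟨N, c, h⟩ := hV (ULift.{u} Q) (free_mem V π hs hk) (ULift.up (π (Xv 0)))
  refine ⟨N, c, fun f => ?_⟩
  have e4 : ∀ i : ℕ, 4 + i = 3 + i + 1 := fun i => by omega
  have h1 : pw (π (Xv 0)) 2 = ∑ i ∈ Finset.range N, c i • pw (π (Xv 0)) (3 + i) := by
    simp only [e4] at h
    rw [show (3 : ℕ) = 2 + 1 from rfl, power_succ, pw_up] at h
    have h2 := congrArg ULift.down h
    simp only at h2
    rw [h2]
    have h3 : ∀ (s : Finset ℕ) (g : ℕ → ULift.{u} Q), (∑ i ∈ s, g i).down = ∑ i ∈ s, (g i).down := by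
      classical
      intro s g
      induction s using Finset.induction_on with
      | empty => rfl
      | insert a s ha ih => rw [Finset.sum_insert ha, Finset.sum_insert ha, ← ih]; rfl
    rw [h3]
    refine Finset.sum_congr rfl (fun i _ => ?_)
    rw [power_succ, pw_up]
    rfl
  have h2 : pw (Xv 0) 2 - ∑ i ∈ Finset.range N, c i • pw (Xv 0) (3 + i) ∈ idl V := by
    rw [← hk, map_sub, sub_eq_zero, pw_map, map_sum, h1]
    refine Finset.sum_congr rfl (fun i _ => ?_)
    rw [map_zsmul, pw_map]
  have h3 := isT_idl V (fun _ => f) _ h2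
  rw [map_sub, pw_map, map_sum, ev_X] at h3
  convert h3 using 3
  rw [map_zsmul, pw_map, ev_X]

theorem minimumCondition {V : RingVariety.{u}} (hV : CubesReduce V) : MinimumCondition V := by
  rintro ⟨W, hW0, hW⟩
  obtain ⟨N, c, hid⟩ := uniform hV
  have hmono : Monotone (fun k => idl (W k)) :=
    monotone_nat_of_le_succ (fun k => idl_mono (hW k).1)
  obtain ⟨K, hK⟩ := main_chain_gen N c (fun k => idl (W k)) hmono (fun k => isT_idl _)
    (fun f => idl_mono hW0 (hid f))
  apply (hW K).2
  intro R _ hR
  obtain ⟨E, hE⟩ := (W (K + 1)).equational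
  rw [hE R]
  intro e he
  have h1 : e.1.val Xv - e.2.val Xv ∈ idl (W (K + 1)) :=
    (mem_idl_term e).2 fun S _ hS => (hE S).1 hS e he
  have h2 : idl (W (K + 1)) = idl (W K) := hK (K + 1) (Nat.le_succ K)
  rw [h2] at h1
  exact (mem_idl_term e).1 h1 R hR

theorem cubesReduce_of_sub {V W : RingVariety.{u}} (h : Sub W V) (hV : CubesReduce V) :
    CubesReduce W := fun R _ hR x => hV R (h R hR) x

/-- The variety defined by a set of identities. -/
def ofSet (F : Set (RTerm × RTerm)) : RingVariety.{u} where
  mem := fun R _ => ∀ e ∈ F, Satisfies R e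
  equational := ⟨F, fun _ _ => Iff.rfl⟩

theorem finitelyBased {V : RingVariety.{u}} (hV : CubesReduce V) : FinitelyBased V := by
  classical
  by_contra hcon
  obtain ⟨N, c, hid⟩ := uniform hV
  obtain ⟨E, hE⟩ := V.equational
  let e0 : RTerm × RTerm :=
    (termPower 3, sumT N (fun i => zsmulT (c i) (termPower (4 + i))))
  have he0 : ∀ (R : Type u) [NonUnitalRing R], Satisfies R e0 ↔
      ∀ x : R, pw x 2 = ∑ i ∈ Finset.range N, c i • pw x (3 + i) := by
    intro R _
    have key : ∀ v : ℕ → R, (e0.1.val v = e0.2.val v ↔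
        pw (v 0) 2 = ∑ i ∈ Finset.range N, c i • pw (v 0) (3 + i)) := by
      intro v
      change (termPower 3).val v = (sumT N _).val v ↔ _
      rw [val_termPower, val_sumT, show (3 : ℕ) = 2 + 1 from rfl, power_succ]
      have : ∀ i ∈ Finset.range N, (zsmulT (c i) (termPower (4 + i))).val v =
          c i • pw (v 0) (3 + i) := by
        intro i _
        rw [val_zsmulT, val_termPower, show 4 + i = 3 + i + 1 by omega, power_succ]
      rw [Finset.sum_congr rfl this]
    constructor
    · intro h x
      exact (key fun _ => x).1 (h fun _ => x)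
    · intro h v
      exact (key v).2 (h (v 0))
  have hVe0 : ∀ (R : Type u) [NonUnitalRing R], V.mem R → Satisfies R e0 := by
    intro R _ hR
    rw [he0]
    intro x
    have h1 := mem_idl.1 (hid (Xv 0)) R hR (fun _ => x)
    rw [map_sub, pw_map, map_sum, ev_X, sub_eq_zero] at h1
    rw [h1]
    refine Finset.sum_congr rfl (fun i _ => ?_)
    rw [map_zsmul, pw_map, ev_X]
  -- one more identity of `V` is always missing
  have step : ∀ F : {F : Finset (RTerm × RTerm) // e0 ∈ F ∧
      ∀ e ∈ F, ∀ (R : Type u) [NonUnitalRing R], V.mem R → Satisfies R e},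
      ∃ e ∈ E, ¬ ∀ (R : Type u) [NonUnitalRing R], (ofSet (F.1 : Set _)).mem R → Satisfies R e := by
    rintro ⟨F, h0, hF⟩
    by_contra hc
    push Not at hc
    apply hcon
    refine ⟨(F : Set _), F.finite_toSet, fun R _ => ⟨fun hR e he => hF e he R hR, fun h => ?_⟩⟩
    rw [hE R]
    intro e he
    exact hc e he R h
  choose g hgE hg using step
  let F : ℕ → {F : Finset (RTerm × RTerm) // e0 ∈ F ∧
      ∀ e ∈ F, ∀ (R : Type u) [NonUnitalRing R], V.mem R → Satisfies R e} := fun k =>
    Nat.rec ⟨{e0}, Finset.mem_singleton_self _, by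
        intro e he R _ hR
        rw [Finset.mem_singleton] at he
        subst he
        exact hVe0 R hR⟩
      (fun _ F => ⟨insert (g F) F.1, Finset.mem_insert_of_mem F.2.1, by
        intro e he R _ hR
        rcases Finset.mem_insert.1 he with rfl | he
        · exact (hE R).1 hR _ (hgE F)
        · exact F.2.2 e he R hR⟩) k
  have hFs : ∀ k, (F (k + 1)).1 = insert (g (F k)) (F k).1 := fun k => rfl
  have hmono : Monotone (fun k => idl (ofSet.{u} ((F k).1 : Set _))) := by
    refine monotone_nat_of_le_succ (fun k => idl_mono ?_)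
    intro R _ hR e he
    refine hR e ?_
    rw [hFs, Finset.coe_insert]
    exact Set.mem_insert_of_mem _ he
  obtain ⟨K, hK⟩ := main_chain_gen N c (fun k => idl (ofSet.{u} ((F k).1 : Set _))) hmono
    (fun k => isT_idl _) (by
      intro f
      rw [mem_idl]
      intro R _ hR v
      have h1 := (he0 R).1 (hR e0 (by exact_mod_cast (F 0).2.1)) (ev v f)
      rw [map_sub, pw_map, map_sum, h1, sub_eq_zero]
      refine Finset.sum_congr rfl (fun i _ => ?_)
      rw [map_zsmul, pw_map])
  apply hg (F K)
  have h2 : idl (ofSet.{u} ((F (K + 1)).1 : Set _)) = idl (ofSet.{u} ((F K).1 : Set _)) :=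
    hK (K + 1) (Nat.le_succ K)
  have h1 : (g (F K)).1.val Xv - (g (F K)).2.val Xv ∈ idl (ofSet.{u} ((F (K + 1)).1 : Set _)) := by
    refine (mem_idl_term _).2 fun R _ hR => hR _ ?_
    rw [hFs, Finset.coe_insert]
    exact Set.mem_insert _ _
  rw [h2] at h1
  intro R _ hR
  exact (mem_idl_term _).1 h1 R hR

/-- If in every ring of the variety `V` the cube of every element is an integer combination of its
higher powers, then every strictly descending chain of subvarieties of `V` is finite and every
subvariety of `V` is defined by finitely many identities.  In particular the variety given by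
`x ^ 3 = x ^ n` satisfies the minimum condition for every `n ≥ 4`. -/
theorem result : (∀ V : RingVariety.{u}, CubesReduce V →
      MinimumCondition V ∧ ∀ W : RingVariety.{u}, Sub W V → FinitelyBased W) ∧
    (∀ n : ℕ, 4 ≤ n → CubesReduce (M.{u} n) ∧ MinimumCondition (M.{u} n)) := by
  have h1 : ∀ V : RingVariety.{u}, CubesReduce V →
      MinimumCondition V ∧ ∀ W : RingVariety.{u}, Sub W V → FinitelyBased W :=
    fun V hV => ⟨minimumCondition hV, fun W hW => finitelyBased (cubesReduce_of_sub hW hV)⟩
  refine ⟨h1, fun n hn => ?_⟩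
  have h2 : CubesReduce (M.{u} n) := by
    intro R _ hR x
    refine ⟨n - 3, fun i => if i = n - 4 then 1 else 0, ?_⟩
    rw [Finset.sum_eq_single (n - 4)]
    · beta_reduce
      rw [if_pos rfl, one_smul, show 4 + (n - 4) = n by omega]
      exact hR x
    · intro i _ hi
      beta_reduce
      rw [if_neg hi, zero_smul]
    · intro h
      exact absurd (Finset.mem_range.2 (by omega)) h
  exact ⟨h2, (h1 _ h2).1⟩

end Pool.Agent.Results.MP_f5ed0a_al.HigherPowers
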